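import Pool.Agent.Helper36.LM.Defs
import Pool.Agent.Helper4.LM.G

set_option autoImplicit false

namespace Pool.Agent.Helper36.LM

open Module Finset

variable {K : Type} [Field K] {E : Type} [AddCommGroup E] [Module K E] [FiniteDimensional K E]
  {ι : Type} [Fintype ι]

namespace Conf

section opt

variable (hK : Big K (2 + Fintype.card ι + 2 * Fintype.card ι ^ 2))

include hK

theorem L4 {C : Conf K E ι} {p : ℕ} (hp : p ≤ C.pot) (hI : ¬ C.Imp p 3) {i j l : ι}
    {ci cj : Dual K E} {ψi ψj : E} {di dj : Dual K E} (hi : C.Fr i ci ψi di)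
    (hj : C.Fr j cj ψj dj) (hij : ci ψj ≠ 0) {δ : K} {η : E} (hη : C.T η = di - δ • dj)
    (hl : C.line l ≤ C.R) {f : Dual K E} (hf : f ∈ C.line l) : f η = 0 := by
  have hI2 : ¬ C.Imp p 2 := fun h => hI (h.mono (by norm_num))
  obtain ⟨μ, hμ, h, hone, hadj⟩ := exists_twist hK hp hI2 hj
  have hδ : δ ≠ 0 := by
    rintro rfl
    apply hi.nmem
    rw [zero_smul, sub_zero] at hη
    exact ⟨η, hη⟩
  have hpot : p ≤ (C.tw ψj dj μ h).pot :=
    le_trans hp (pot_le_of (tw_rnk h).symm hone hadj)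
  have hI' : ¬ (C.tw ψj dj μ h).Imp p 2 := fun h' => hI (imp_of_tw hj μ h h')
  have hline : (C.tw ψj dj μ h).line l = C.line l :=
    tw_line_eq h (fun f hf => L2 hK hp hI2 hl hj hf)
  have hfr := tw_fr_adj hj h hi hμ hij hδ hη
  have hl' : (C.tw ψj dj μ h).line l ≤ (C.tw ψj dj μ h).R := by
    rw [hline, tw_R]
    exact hl
  have hf' : f ∈ (C.tw ψj dj μ h).line l := by
    rw [hline]
    exact hf
  have h1 := L2 hK hpot hI' hl' hfr hf'
  have h2 := L2 hK hp hI2 hl hi hf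
  rw [map_add, map_smul, h2, smul_zero, zero_add] at h1
  exact h1

theorem L5 {C : Conf K E ι} {p : ℕ} (hp : p ≤ C.pot) (hI : ¬ C.Imp p 3) {i j k l : ι}
    {ci cj ck cl : Dual K E} {ψi ψj ψk ψl : E} {di dj dk dl : Dual K E}
    (hi : C.Fr i ci ψi di) (hj : C.Fr j cj ψj dj) (hk : C.Fr k ck ψk dk) (hl : C.Fr l cl ψl dl)
    (hij : ci ψj ≠ 0) (hlk : cl ψk ≠ 0) (hik : ci ψk = 0) (hil : ci ψl = 0) (hjk : cj ψk = 0)
    (hjl : cj ψl = 0) {δ δ' : K} {η ζ : E} (hη : C.T η = di - δ • dj)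
    (hζ : C.T ζ = dl - δ' • dk) : C.T η ζ = 0 := by
  have hI2 : ¬ C.Imp p 2 := fun h => hI (h.mono (by norm_num))
  obtain ⟨μ, hμ, h, hone, hadj⟩ := exists_twist hK hp hI2 hj
  have hδ : δ ≠ 0 := by
    rintro rfl
    apply hi.nmem
    rw [zero_smul, sub_zero] at hη
    exact ⟨η, hη⟩
  have hδ' : δ' ≠ 0 := by
    rintro rfl
    apply hl.nmem
    rw [zero_smul, sub_zero] at hζ
    exact ⟨ζ, hζ⟩
  -- symmetric forms of the nonadjacency
  have hki : ck ψi = 0 := by
    have := C.swap ψk ψi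
    rw [hk.eq, hi.eq, hik, neg_zero] at this
    exact this
  have hli : cl ψi = 0 := by
    have := C.swap ψl ψi
    rw [hl.eq, hi.eq, hil, neg_zero] at this
    exact this
  have hkj : ck ψj = 0 := by
    have := C.swap ψk ψj
    rw [hk.eq, hj.eq, hjk, neg_zero] at this
    exact this
  have hlj : cl ψj = 0 := by
    have := C.swap ψl ψj
    rw [hl.eq, hj.eq, hjl, neg_zero] at this
    exact this
  -- L3 in C
  have a1 : C.T η ψk = 0 := L3 hK hp hI2 hi hj hk hij hik hjk hη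
  have a2 : C.T η ψl = 0 := L3 hK hp hI2 hi hj hl hij hil hjl hη
  have a3 : C.T ζ ψi = 0 := L3 hK hp hI2 hl hk hi hlk hli hki hζ
  have a4 : C.T ζ ψj = 0 := L3 hK hp hI2 hl hk hj hlk hlj hkj hζ
  have hpot : p ≤ (C.tw ψj dj μ h).pot :=
    le_trans hp (pot_le_of (tw_rnk h).symm hone hadj)
  have hI' : ¬ (C.tw ψj dj μ h).Imp p 2 := fun h' => hI (imp_of_tw hj μ h h')
  have hfi := tw_fr_adj hj h hi hμ hij hδ hη
  -- frames of k and l after the twist
  have aux : ∀ {m : ι} {cm : Dual K E} {ψm : E} {dm : Dual K E}, C.Fr m cm ψm dm → cm ψj = 0 →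
      (C.tw ψj dj μ h).Fr m cm ψm (dm + (μ * dm ψj) • dj) := by
    intro m cm ψm dm hm h0
    apply tw_fr_nonadj h hm h0
    intro hmem
    have hm1 : m ∈ (C.tw ψj dj μ h).one := hone hm.mem_one
    apply not_mem_one_of_le _ hm1
    intro f hf
    rw [mem_tw_line] at hf
    obtain ⟨f', hf', rfl⟩ := hf
    rw [hm.span, Submodule.mem_span_pair] at hf'
    obtain ⟨x, y, rfl⟩ := hf'
    rw [tw_R]
    have e : x • cm + y • dm + (μ * (x • cm + y • dm) ψj) • dj =
        x • cm + y • (dm + (μ * dm ψj) • dj) := by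
      rw [LinearMap.add_apply, LinearMap.smul_apply, LinearMap.smul_apply, h0]
      simp only [smul_eq_mul, mul_zero, zero_add]
      module
    rw [e]
    exact C.R.add_mem (C.R.smul_mem _ ⟨ψm, hm.eq⟩) (C.R.smul_mem _ hmem)
  have hfk := aux hk hkj
  have hfl := aux hl hlj
  have hT : (C.tw ψj dj μ h).T = C.T := rfl
  have hζ' : (C.tw ψj dj μ h).T ζ =
      (dl + (μ * dl ψj) • dj) - δ' • (dk + (μ * dk ψj) • dj) := by
    have a4' : dl ψj - δ' * dk ψj = 0 := by
      rw [hζ, LinearMap.sub_apply, LinearMap.smul_apply, smul_eq_mul] at a4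
      exact a4
    have e : dl ψj = δ' * dk ψj := sub_eq_zero.1 a4'
    rw [hT, hζ, e]
    module
  -- nonadjacency of i to l and k in the twisted configuration
  have b1 : cl ((-(δ + μ * di ψj) / (μ * ci ψj)) • ψi + η) = 0 := by
    have : cl η = 0 := by
      have := C.swap ψl η
      rw [hl.eq, a2, neg_zero] at this
      exact this
    rw [map_add, map_smul, hli, this, smul_zero, add_zero]
  have b2 : ck ((-(δ + μ * di ψj) / (μ * ci ψj)) • ψi + η) = 0 := by
    have : ck η = 0 := by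
      have := C.swap ψk η
      rw [hk.eq, a1, neg_zero] at this
      exact this
    rw [map_add, map_smul, hki, this, smul_zero, add_zero]
  have h1 := L3 hK hpot hI' hfl hfk hfi hlk b1 b2 hζ'
  rw [hT, map_add, map_smul, a3, smul_zero, zero_add] at h1
  rw [C.swap, h1, neg_zero]

end opt

end Conf

end Pool.Agent.Helper36.LM
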